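import Mathlib
import Pool.Agent.H97R2.BP.Defs
import Pool.Agent.H97R2.BP.Defs2

open scoped ComplexOrder InnerProductSpace ComplexConjugate TensorProduct
open Finset H759R2.Kad H710R2.DP

noncomputable section

namespace H97R2.BP

namespace ZZ692

section

variable {K : Type} [NormedAddCommGroup K] [InnerProductSpace ℂ K] [CompleteSpace K]

/-- If `u† y = -y` for a contraction `u` then `u y = -y`. -/
theorem neg_of_adj {u : K →L[ℂ] K} (hu : ‖u‖ ≤ 1) {y : K} (hy : (ContinuousLinearMap.adjoint u) y = -y) :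
    u y = -y := by
  have h1 : ‖u y‖ ≤ ‖y‖ := by
    have := u.le_opNorm y
    nlinarith [norm_nonneg y]
  have h2 : ‖u y + y‖ ^ 2 = ‖u y‖ ^ 2 + 2 * (⟪u y, y⟫_ℂ).re + ‖y‖ ^ 2 := by
    have := norm_add_sq (𝕜 := ℂ) (u y) y
    simpa using this
  have h3 : ⟪u y, y⟫_ℂ = -⟪y, y⟫_ℂ := by
    rw [← ContinuousLinearMap.adjoint_inner_right, hy, inner_neg_right]
  have h4 : (⟪y, y⟫_ℂ).re = ‖y‖ ^ 2 := by
    rw [inner_self_eq_norm_sq_to_K]
    norm_cast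
  rw [h3, Complex.neg_re, h4] at h2
  have h5 : ‖u y + y‖ ^ 2 ≤ 0 := by
    nlinarith [norm_nonneg (u y), norm_nonneg y]
  have h6 : ‖u y + y‖ = 0 := by
    have := sq_nonneg ‖u y + y‖
    exact pow_eq_zero_iff two_ne_zero |>.mp (le_antisymm h5 this)
  exact eq_neg_of_add_eq_zero_left (norm_eq_zero.mp h6)

theorem dense_range {u : K →L[ℂ] K} (hu : ‖u‖ ≤ 1) (h : ∀ ζ, u ζ = -ζ → ζ = 0) (ζ : K) {ε : ℝ}
    (hε : 0 < ε) : ∃ ζ₀ : K, ‖(ζ₀ + u ζ₀) - ζ‖ < ε := by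
  let W : Submodule ℂ K := LinearMap.range (LinearMap.id + (u : K →ₗ[ℂ] K))
  have hW : Wᗮ = ⊥ := by
    rw [Submodule.eq_bot_iff]
    intro y hy
    rw [Submodule.mem_orthogonal] at hy
    have h1 : (ContinuousLinearMap.adjoint u) y = -y := by
      apply ext_inner_left ℂ
      intro v
      have h2 := hy (v + u v) ⟨v, rfl⟩
      rw [inner_add_left] at h2
      rw [ContinuousLinearMap.adjoint_inner_right, inner_neg_right]
      exact eq_neg_of_add_eq_zero_right h2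
    exact h y (neg_of_adj hu h1)
  have h1 : W.topologicalClosure = ⊤ := Submodule.topologicalClosure_eq_top_iff.mpr hW
  have h2 : ζ ∈ closure (W : Set K) := by
    rw [← Submodule.topologicalClosure_coe, h1]
    trivial
  rw [Metric.mem_closure_iff] at h2
  obtain ⟨b, ⟨v, rfl⟩, hb⟩ := h2 ε hε
  refine ⟨v, ?_⟩
  rw [dist_comm, dist_eq_norm] at hb
  exact hb

end

end ZZ692

open ZZ692 in
theorem bp_abel : Z_abel := by
  intro K _ _ _ u hu h ζ ε hε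
  obtain ⟨ζ₀, h0⟩ := dense_range hu h ζ (half_pos hε)
  have hn := norm_nonneg ζ₀
  have hp : 0 < 4 * (‖ζ₀‖ + 1) := by linarith
  refine ⟨max (1 / 2) (1 - ε / (4 * (‖ζ₀‖ + 1))), max_lt (by norm_num) (by
    have : 0 < ε / (4 * (‖ζ₀‖ + 1)) := div_pos hε hp
    linarith), lt_of_lt_of_le (by norm_num) (le_max_left _ _), ?_⟩
  intro r hr hr1 w hw
  have hr0 : 0 < r := lt_trans (by norm_num) (lt_of_le_of_lt (le_max_left _ _) hr)
  have hr2 : 1 - ε / (4 * (‖ζ₀‖ + 1)) < r := lt_of_le_of_lt (le_max_right _ _) hr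
  have hr3 : (1 - r) * (4 * (‖ζ₀‖ + 1)) < ε := by
    have : 1 - r < ε / (4 * (‖ζ₀‖ + 1)) := by linarith
    rwa [lt_div_iff₀ hp] at this
  have hle : ∀ d : K, (1 - r) * ‖d‖ ≤ ‖d + (r : ℂ) • u d‖ := by
    intro d
    have h1 : ‖(r : ℂ) • u d‖ ≤ r * ‖d‖ := by
      rw [norm_smul, Complex.norm_real, Real.norm_eq_abs, abs_of_pos hr0]
      have h2 := u.le_opNorm d
      have h3 : ‖u d‖ ≤ ‖d‖ := by nlinarith [norm_nonneg d]
      exact mul_le_mul_of_nonneg_left h3 hr0.le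
    have h4 : ‖d‖ ≤ ‖d + (r : ℂ) • u d‖ + ‖(r : ℂ) • u d‖ := by
      have := norm_sub_le (d + (r : ℂ) • u d) ((r : ℂ) • u d)
      rwa [add_sub_cancel_right] at this
    linarith
  have hd : (w - ζ₀) + (r : ℂ) • u (w - ζ₀) =
      -((ζ₀ + u ζ₀) - ζ) + ((1 - r : ℝ) : ℂ) • u ζ₀ := by
    rw [map_sub, ← hw]
    push_cast
    module
  have h1 := hle (w - ζ₀)
  rw [hd] at h1
  have h2 : ‖-((ζ₀ + u ζ₀) - ζ) + ((1 - r : ℝ) : ℂ) • u ζ₀‖ ≤ ε / 2 + (1 - r) * ‖ζ₀‖ := by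
    refine (norm_add_le _ _).trans (add_le_add ?_ ?_)
    · rw [norm_neg]
      exact h0.le
    · rw [norm_smul, Complex.norm_real, Real.norm_eq_abs, abs_of_pos (by linarith)]
      have h2 := u.le_opNorm ζ₀
      have h3 : ‖u ζ₀‖ ≤ ‖ζ₀‖ := by nlinarith
      exact mul_le_mul_of_nonneg_left h3 (by linarith)
  have h3 : ‖w‖ ≤ ‖w - ζ₀‖ + ‖ζ₀‖ := by
    have := norm_add_le (w - ζ₀) ζ₀
    rwa [sub_add_cancel] at this
  have h4 : (1 - r) * ‖w‖ ≤ (1 - r) * (‖w - ζ₀‖ + ‖ζ₀‖) :=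
    mul_le_mul_of_nonneg_left h3 (by linarith)
  nlinarith

end H97R2.BP
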