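import Mathlib
import Pool.Agent.H97R2.BP.Defs
import Pool.Agent.H97R2.BP.Defs2

open scoped ComplexOrder InnerProductSpace ComplexConjugate TensorProduct
open Finset H759R2.Kad H710R2.DP

noncomputable section

namespace H97R2.BP

namespace ZZ692P

section

variable {K : Type} [NormedAddCommGroup K] [InnerProductSpace ℂ K] [CompleteSpace K]
variable (N : VonNeumannAlgebra K)

/-- evaluation at a vector -/
def ev (α : K) : N.commutant.toStarSubalgebra →ₗ[ℂ] K where
  toFun x := (x : K →L[ℂ] K) α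
  map_add' x y := by simp
  map_smul' c x := by simp

theorem ev_apply (α : K) (x : N.commutant.toStarSubalgebra) : ev N α x = (x : K →L[ℂ] K) α := rfl

/-- the closure of the orbit -/
def Vc (α : K) : Submodule ℂ K := (LinearMap.range (ev N α)).topologicalClosure

instance (α : K) : CompleteSpace (Vc N α) :=
  (Submodule.isClosed_topologicalClosure _).completeSpace_coe

/-- evaluation with values in the closure of the orbit -/
def evc (α : K) : N.commutant.toStarSubalgebra →ₗ[ℂ] Vc N α :=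
  LinearMap.codRestrict (Vc N α) (ev N α)
    (fun x => Submodule.le_topologicalClosure _ ⟨x, rfl⟩)

theorem evc_coe (α : K) (x : N.commutant.toStarSubalgebra) :
    ((evc N α x : Vc N α) : K) = (x : K →L[ℂ] K) α := rfl

theorem evc_dense (α : K) : DenseRange (evc N α) := by
  intro v
  rw [closure_subtype]
  have h1 : (Subtype.val '' Set.range (evc N α)) = (LinearMap.range (ev N α) : Set K) := by
    ext z
    constructor
    · rintro ⟨_, ⟨x, rfl⟩, rfl⟩
      exact ⟨x, rfl⟩
    · rintro ⟨x, rfl⟩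
      exact ⟨_, ⟨x, rfl⟩, rfl⟩
  rw [h1, ← Submodule.topologicalClosure_coe]
  exact v.2

variable {N}
variable {α β : K} (h : ∀ x' : K →L[ℂ] K, x' ∈ N.commutant → ‖x' α‖ = ‖x' β‖)

/-- the extension of the map `x' α ↦ x' β` -/
def Fx (N : VonNeumannAlgebra K) (α β : K) : Vc N α →L[ℂ] K := (ev N β).extendOfNorm (evc N α)

include h

theorem Fx_ev (x : N.commutant.toStarSubalgebra) : Fx N α β (evc N α x) = (x : K →L[ℂ] K) β := by
  unfold Fx
  rw [LinearMap.extendOfNorm_eq (evc_dense N α) ⟨1, fun x => ?_⟩]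
  · rfl
  · rw [one_mul, ev_apply, ← h _ x.2]
    rfl

theorem Fx_norm (v : Vc N α) : ‖Fx N α β v‖ = ‖v‖ := by
  refine (evc_dense N α).induction_on v ?_ ?_
  · exact isClosed_eq (by fun_prop) (by fun_prop)
  · intro x
    rw [Fx_ev h, ← h _ x.2]
    rfl

theorem Fx_inner (v w : Vc N α) : ⟪Fx N α β v, Fx N α β w⟫_ℂ = ⟪v, w⟫_ℂ := by
  let L : Vc N α →ₗᵢ[ℂ] K := ⟨(Fx N α β : Vc N α →ₗ[ℂ] K), Fx_norm h⟩
  exact L.inner_map_map v w

theorem Vc_inv {t : K →L[ℂ] K} (ht : t ∈ N.commutant) (v : Vc N α) :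
    ∃ hv : t v ∈ Vc N α, Fx N α β ⟨t v, hv⟩ = t (Fx N α β v) := by
  have h0 : ∀ v : Vc N α, t v ∈ Vc N α := by
    intro v
    refine (evc_dense N α).induction_on v ?_ ?_
    · exact (Submodule.isClosed_topologicalClosure _).preimage
        (t.continuous.comp continuous_subtype_val)
    · intro x
      have h1 : t ((evc N α x : Vc N α) : K) = ((evc N α (⟨t, ht⟩ * x) : Vc N α) : K) := by
        rw [evc_coe, evc_coe]
        rfl
      rw [h1]
      exact (evc N α _).2
  refine ⟨h0 v, ?_⟩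
  refine (evc_dense N α).induction_on v ?_ ?_
  · refine isClosed_eq ((Fx N α β).continuous.comp ?_) (by fun_prop)
    exact Continuous.subtype_mk (t.continuous.comp continuous_subtype_val) _
  · intro x
    have h1 : (⟨t ((evc N α x : Vc N α) : K), h0 _⟩ : Vc N α) = evc N α (⟨t, ht⟩ * x) := by
      apply Subtype.ext
      rfl
    rw [h1, Fx_ev h, Fx_ev h]
    rfl

omit h in
theorem mem_of_comm {a : K →L[ℂ] K} (ha : ∀ t : K →L[ℂ] K, t ∈ N.commutant → t * a = a * t) :
    a ∈ N := by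
  rw [← VonNeumannAlgebra.commutant_commutant N, VonNeumannAlgebra.mem_commutant_iff]
  exact ha

omit h in
theorem orth_inv {t : K →L[ℂ] K} (ht : t ∈ N.commutant) {w : K} (hw : w ∈ (Vc N α)ᗮ) :
    t w ∈ (Vc N α)ᗮ := by
  rw [Submodule.mem_orthogonal] at hw ⊢
  have hst : star t ∈ N.commutant := star_mem ht
  intro v hv
  have h2 := hw (star t v) (Vc_inv (β := α) (fun _ _ => rfl) hst ⟨v, hv⟩).choose
  rwa [ContinuousLinearMap.star_eq_adjoint, ContinuousLinearMap.adjoint_inner_left] at h2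

end

end ZZ692P

open ZZ692P in
theorem bp_pi : Z_pi := by
  intro K _ _ _ N α β h
  let P : K →L[ℂ] Vc N α := (Vc N α).orthogonalProjectionOnto
  have hα : α ∈ Vc N α := Submodule.le_topologicalClosure _ ⟨1, rfl⟩
  have hFα : Fx N α β ⟨α, hα⟩ = β := by
    have h1 : (⟨α, hα⟩ : Vc N α) = evc N α 1 := Subtype.ext rfl
    rw [h1, Fx_ev h]
    rfl
  have hPα : P α = ⟨α, hα⟩ := by
    have := Submodule.orthogonalProjectionOnto_mem_subspace_eq_self (K := Vc N α) ⟨α, hα⟩
    exact this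
  refine ⟨(Fx N α β) ∘L P, ?_, ?_, ?_, ?_⟩
  · refine mem_of_comm fun t ht => ?_
    ext ξ
    show t (Fx N α β (P ξ)) = Fx N α β (P (t ξ))
    have h1 : ξ - (P ξ : K) ∈ (Vc N α)ᗮ := Submodule.sub_starProjection_mem_orthogonal ξ
    obtain ⟨hv, h2⟩ := Vc_inv (β := β) h ht (P ξ)
    have h3 : P (t ξ) = ⟨t (P ξ), hv⟩ := by
      have h4 : t ξ = t (P ξ) + t (ξ - (P ξ : K)) := by
        rw [← map_add, add_sub_cancel]
      rw [h4, map_add]
      have h5 : P (t (ξ - (P ξ : K))) = 0 :=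
        Submodule.orthogonalProjectionOnto_apply_of_mem_orthogonal (orth_inv ht h1)
      rw [h5, add_zero]
      exact Submodule.orthogonalProjectionOnto_mem_subspace_eq_self (K := Vc N α) ⟨t (P ξ), hv⟩
    rw [h3, h2]
  · refine ContinuousLinearMap.opNorm_le_bound _ zero_le_one fun ξ => ?_
    rw [ContinuousLinearMap.comp_apply, Fx_norm h, one_mul]
    exact Submodule.norm_orthogonalProjectionOnto_apply_le _ ξ
  · show Fx N α β (P α) = β
    rw [hPα, hFα]
  · apply ext_inner_right ℂ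
    intro ζ
    rw [ContinuousLinearMap.star_eq_adjoint, ContinuousLinearMap.adjoint_inner_left]
    show ⟪β, Fx N α β (P ζ)⟫_ℂ = ⟪α, ζ⟫_ℂ
    have h1 : ⟪β, Fx N α β (P ζ)⟫_ℂ = ⟪Fx N α β ⟨α, hα⟩, Fx N α β (P ζ)⟫_ℂ := by rw [hFα]
    rw [h1, Fx_inner h]
    exact Submodule.inner_orthogonalProjectionOnto_eq_of_mem_left ⟨α, hα⟩ ζ

end H97R2.BP
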