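import Mathlib
import Pool.Agent.H97R2.BP.Defs
import Pool.Agent.H97R2.BP.Defs2

open scoped ComplexOrder InnerProductSpace ComplexConjugate TensorProduct
open Finset H759R2.Kad H710R2.DP

noncomputable section

namespace H97R2.BP

namespace ZZ692T

section

variable {K : Type} [NormedAddCommGroup K] [InnerProductSpace ℂ K] [CompleteSpace K]
variable {N : VonNeumannAlgebra K}

theorem mem_of_comm {a : K →L[ℂ] K} (ha : ∀ t : K →L[ℂ] K, t ∈ N.commutant → t * a = a * t) :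
    a ∈ N := by
  rw [← VonNeumannAlgebra.commutant_commutant N, VonNeumannAlgebra.mem_commutant_iff]
  exact ha

/-- If `u† y = -y` for a contraction `u` then `u y = -y`. -/
theorem neg_of_adj {u : K →L[ℂ] K} (hu : ‖u‖ ≤ 1) {y : K} (hy : (star u) y = -y) :
    u y = -y := by
  have h1 : ‖u y‖ ≤ ‖y‖ := by
    have := u.le_opNorm y
    nlinarith [norm_nonneg y]
  have h2 : ‖u y + y‖ ^ 2 = ‖u y‖ ^ 2 + 2 * (⟪u y, y⟫_ℂ).re + ‖y‖ ^ 2 := by
    have := norm_add_sq (𝕜 := ℂ) (u y) y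
    simpa using this
  have h3 : ⟪u y, y⟫_ℂ = -⟪y, y⟫_ℂ := by
    rw [← ContinuousLinearMap.adjoint_inner_right, ← ContinuousLinearMap.star_eq_adjoint, hy,
      inner_neg_right]
  have h4 : (⟪y, y⟫_ℂ).re = ‖y‖ ^ 2 := by
    rw [inner_self_eq_norm_sq_to_K]
    norm_cast
  rw [h3, Complex.neg_re, h4] at h2
  have h5 : ‖u y + y‖ ^ 2 ≤ 0 := by
    nlinarith [norm_nonneg (u y), norm_nonneg y]
  have h6 : ‖u y + y‖ = 0 := by
    have := sq_nonneg ‖u y + y‖
    exact pow_eq_zero_iff two_ne_zero |>.mp (le_antisymm h5 this)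
  exact eq_neg_of_add_eq_zero_left (norm_eq_zero.mp h6)

/-- a vector orthogonal to a dense orbit is zero -/
theorem zero_of_orth {Ω : K} (hc : Cyc (N.commutant : Set (K →L[ℂ] K)) Ω) {ζ : K}
    (h : ∀ t : K →L[ℂ] K, t ∈ N.commutant → ⟪ζ, t Ω⟫_ℂ = 0) : ζ = 0 := by
  by_contra hne
  have hp : 0 < ‖ζ‖ := norm_pos_iff.mpr hne
  obtain ⟨t, ht, h1⟩ := hc ζ ‖ζ‖ hp
  have h2 : ‖t Ω - ζ‖ ^ 2 = ‖t Ω‖ ^ 2 - 2 * (⟪t Ω, ζ⟫_ℂ).re + ‖ζ‖ ^ 2 := by
    have := norm_sub_sq (𝕜 := ℂ) (t Ω) ζ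
    simpa using this
  have h3 : ⟪t Ω, ζ⟫_ℂ = 0 := by
    rw [← inner_conj_symm, h t ht, map_zero]
  rw [h3, Complex.zero_re] at h2
  nlinarith [norm_nonneg (t Ω), norm_nonneg (t Ω - ζ)]

theorem claim {Ω η : K} {u : K →L[ℂ] K} (hc : Cyc (N.commutant : Set (K →L[ℂ] K)) Ω)
    (huN : u ∈ N) (hu : ‖u‖ ≤ 1) (h1 : u (Ω + η) = Ω - η) (ζ : K) (hζ : u ζ = -ζ) : ζ = 0 := by
  have hsu : ‖star u‖ ≤ 1 := by rwa [norm_star]
  have key : ∀ ζ : K, u ζ = -ζ → ⟪ζ, Ω⟫_ℂ = 0 := by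
    intro ζ hζ
    have h2 : (star u) ζ = -ζ := neg_of_adj hsu (by rwa [star_star])
    have h3 : ⟪ζ, Ω - η⟫_ℂ = -⟪ζ, Ω + η⟫_ℂ := by
      rw [← h1, ← ContinuousLinearMap.adjoint_inner_left, ← ContinuousLinearMap.star_eq_adjoint, h2,
        inner_neg_left]
    rw [inner_sub_right, inner_add_right] at h3
    have h4 : (2 : ℂ) * ⟪ζ, Ω⟫_ℂ = 0 := by linear_combination h3
    exact (mul_eq_zero.mp h4).resolve_left two_ne_zero
  refine zero_of_orth hc fun t ht => ?_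
  have hst : star t ∈ N.commutant := star_mem ht
  have h2 : u ((star t) ζ) = -((star t) ζ) := by
    have h3 := VonNeumannAlgebra.mem_commutant_iff.mp hst u huN
    have h4 : u ((star t) ζ) = (star t) (u ζ) := by
      have := congrArg (fun f : K →L[ℂ] K => f ζ) h3
      exact this
    rw [h4, hζ, map_neg]
  have h3 := key _ h2
  rwa [ContinuousLinearMap.star_eq_adjoint, ContinuousLinearMap.adjoint_inner_left] at h3

end

end ZZ692T

open ZZ692T in
theorem bp_t5a (h1 : Z_pi) (h2 : Z_abel) : Z_t5a := by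
  intro K _ _ _ N Ω hc η hη ε hε
  -- equality of norms
  have hnorm : ∀ x' : K →L[ℂ] K, x' ∈ N.commutant → ‖x' (Ω + η)‖ = ‖x' (Ω - η)‖ := by
    intro x' hx'
    have hs : star x' * x' ∈ N.commutant := mul_mem (star_mem hx') hx'
    have h3 := hη (star x' * x') hs (by rw [star_mul, star_star])
    have h4 : (⟪x' η, x' Ω⟫_ℂ).re = 0 := by
      have h5 : ⟪η, (star x' * x') Ω⟫_ℂ = ⟪x' η, x' Ω⟫_ℂ := by
        show ⟪η, (star x') (x' Ω)⟫_ℂ = _
        rw [ContinuousLinearMap.star_eq_adjoint, ContinuousLinearMap.adjoint_inner_right]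
      rwa [h5] at h3
    have h5 : (⟪x' Ω, x' η⟫_ℂ).re = 0 := by
      rw [← inner_conj_symm, Complex.conj_re]
      exact h4
    have h6 : ‖x' Ω + x' η‖ ^ 2 = ‖x' Ω‖ ^ 2 + 2 * (⟪x' Ω, x' η⟫_ℂ).re + ‖x' η‖ ^ 2 := by
      have := norm_add_sq (𝕜 := ℂ) (x' Ω) (x' η)
      simpa using this
    have h7 : ‖x' Ω - x' η‖ ^ 2 = ‖x' Ω‖ ^ 2 - 2 * (⟪x' Ω, x' η⟫_ℂ).re + ‖x' η‖ ^ 2 := by
      have := norm_sub_sq (𝕜 := ℂ) (x' Ω) (x' η)
      simpa using this
    rw [map_add, map_sub]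
    rw [← sq_eq_sq₀ (norm_nonneg _) (norm_nonneg _), h6, h7, h5]
    ring
  obtain ⟨u, huN, hu, hu1, hu2⟩ := h1 K N (Ω + η) (Ω - η) hnorm
  have hsu : ‖star u‖ ≤ 1 := by rwa [norm_star]
  have hclaim : ∀ ζ, u ζ = -ζ → ζ = 0 := claim hc huN hu hu1
  have hclaim' : ∀ ζ, (star u) ζ = -ζ → ζ = 0 := fun ζ hζ => hclaim ζ (neg_of_adj hu hζ)
  obtain ⟨r₁, hr1, hr1', hA⟩ := h2 K u hu hclaim (Ω - η) (ε / 2) (half_pos hε)
  obtain ⟨r₂, hr2, hr2', hB⟩ := h2 K (star u) hsu hclaim' (Ω + η) (ε / 2) (half_pos hε)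
  -- choice of r
  obtain ⟨r, hr, hrlt⟩ : ∃ r, max r₁ r₂ < r ∧ r < 1 := exists_between (max_lt hr1 hr2)
  have hr1r : r₁ < r := (le_max_left _ _).trans_lt hr
  have hr2r : r₂ < r := (le_max_right _ _).trans_lt hr
  have hr0 : 0 < r := hr1'.trans hr1r
  have hru : ‖-((r : ℂ) • u)‖ < 1 := by
    rw [norm_neg, norm_smul, Complex.norm_real, Real.norm_eq_abs, abs_of_pos hr0]
    nlinarith [norm_nonneg u]
  obtain ⟨b, hb1, hb2⟩ : ∃ b : K →L[ℂ] K, b * (1 + (r : ℂ) • u) = 1 ∧ (1 + (r : ℂ) • u) * b = 1 := by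
    have hunit : IsUnit (1 + (r : ℂ) • u) := by
      have := isUnit_one_sub_of_norm_lt_one hru
      rwa [sub_neg_eq_add] at this
    obtain ⟨v, hv⟩ := hunit
    refine ⟨(v⁻¹ : (K →L[ℂ] K)ˣ), ?_, ?_⟩
    · rw [← hv]
      exact v.inv_mul
    · rw [← hv]
      exact v.mul_inv
  have hbN : b ∈ N := by
    refine mem_of_comm fun t ht => ?_
    have h3 : t * (1 + (r : ℂ) • u) = (1 + (r : ℂ) • u) * t := by
      have h4 := VonNeumannAlgebra.mem_commutant_iff.mp ht u huN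
      rw [mul_add, add_mul, mul_one, one_mul, mul_smul_comm, smul_mul_assoc, h4]
    calc t * b = b * (1 + (r : ℂ) • u) * t * b := by rw [hb1, one_mul]
      _ = b * (t * (1 + (r : ℂ) • u)) * b := by rw [h3]; simp only [mul_assoc]
      _ = b * t * ((1 + (r : ℂ) • u) * b) := by simp only [mul_assoc]
      _ = b * t := by rw [hb2, mul_one]
  have hbu : b * ((r : ℂ) • u) = ((r : ℂ) • u) * b := by
    have h3 := hb1.trans hb2.symm
    rw [mul_add, add_mul, mul_one, one_mul] at h3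
    exact add_left_cancel h3
  have huN' : (r : ℂ) • u ∈ N := N.toStarSubalgebra.smul_mem huN _
  have hcN : b * (1 - (r : ℂ) • u) ∈ N := mul_mem hbN (sub_mem (one_mem _) huN')
  have hsc : star (b * (1 - (r : ℂ) • u)) = star b * (1 - (r : ℂ) • star u) := by
    have h3 : b * (1 - (r : ℂ) • u) = (1 - (r : ℂ) • u) * b := by
      rw [mul_sub, sub_mul, mul_one, one_mul, hbu]
    rw [h3, star_mul, star_sub, star_one, star_smul]
    simp
  have hw1 : b (Ω - η) + (r : ℂ) • u (b (Ω - η)) = Ω - η := by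
    have := congrArg (fun f : K →L[ℂ] K => f (Ω - η)) hb2
    simpa using this
  have hw2 : (star b) (Ω + η) + (r : ℂ) • (star u) ((star b) (Ω + η)) = Ω + η := by
    have h3 := congrArg star hb1
    rw [star_mul, star_add, star_one, star_smul] at h3
    have := congrArg (fun f : K →L[ℂ] K => f (Ω + η)) h3
    simpa using this
  have hA' := hA r hr1r hrlt _ hw1
  have hB' := hB r hr2r hrlt _ hw2
  have hc1 : (b * (1 - (r : ℂ) • u)) Ω = η + ((1 - r : ℝ) : ℂ) • b (Ω - η) := by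
    have h3 : (1 - (r : ℂ) • u) Ω = (1 + (r : ℂ) • u) η + ((1 - r : ℝ) : ℂ) • (Ω - η) := by
      show Ω - (r : ℂ) • u Ω = (η + (r : ℂ) • u η) + ((1 - r : ℝ) : ℂ) • (Ω - η)
      have h4 : u Ω = Ω - η - u η := by
        rw [map_add] at hu1
        rw [← hu1]
        abel
      rw [h4]
      push_cast
      module
    show b ((1 - (r : ℂ) • u) Ω) = _
    rw [h3, map_add, map_smul]
    congr 1
    exact congrArg (fun f : K →L[ℂ] K => f η) hb1
  have hc2 : (star b * (1 - (r : ℂ) • star u)) Ω = -η + ((1 - r : ℝ) : ℂ) • (star b) (Ω + η) := by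
    have h3 : (1 - (r : ℂ) • star u) Ω = -((1 + (r : ℂ) • star u) η) + ((1 - r : ℝ) : ℂ) • (Ω + η) := by
      show Ω - (r : ℂ) • (star u) Ω = -(η + (r : ℂ) • (star u) η) + ((1 - r : ℝ) : ℂ) • (Ω + η)
      have h4 : (star u) Ω = Ω + η + (star u) η := by
        rw [map_sub] at hu2
        rw [← hu2]
        abel
      rw [h4]
      push_cast
      module
    show (star b) ((1 - (r : ℂ) • star u) Ω) = _
    rw [h3, map_add, map_smul, map_neg]
    congr 2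
    have h5 : star b * (1 + (r : ℂ) • star u) = 1 := by
      have h6 := congrArg star hb2
      rw [star_mul, star_add, star_one, star_smul] at h6
      simpa using h6
    exact congrArg (fun f : K →L[ℂ] K => f η) h5
  refine ⟨(1 / 2 : ℂ) • (b * (1 - (r : ℂ) • u) - star (b * (1 - (r : ℂ) • u))), ?_, ?_, ?_⟩
  · exact N.toStarSubalgebra.smul_mem (sub_mem hcN (star_mem hcN)) _
  · rw [star_smul, star_sub, star_star, ← smul_neg, neg_sub]
    congr 1
    simp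
  · have h3 : ((1 / 2 : ℂ) • (b * (1 - (r : ℂ) • u) - star (b * (1 - (r : ℂ) • u)))) Ω - η =
        (1 / 2 : ℂ) • (((1 - r : ℝ) : ℂ) • b (Ω - η) - ((1 - r : ℝ) : ℂ) • (star b) (Ω + η)) := by
      rw [hsc]
      show (1 / 2 : ℂ) • ((b * (1 - (r : ℂ) • u)) Ω - (star b * (1 - (r : ℂ) • star u)) Ω) - η = _
      rw [hc1, hc2]
      module
    rw [h3, norm_smul]
    have h4 : ‖(((1 - r : ℝ) : ℂ) • b (Ω - η) - ((1 - r : ℝ) : ℂ) • (star b) (Ω + η))‖ ≤
        ε / 2 + ε / 2 := by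
      refine (norm_sub_le _ _).trans (add_le_add ?_ ?_)
      · rw [norm_smul, Complex.norm_real, Real.norm_eq_abs, abs_of_pos (by linarith)]
        exact hA'
      · rw [norm_smul, Complex.norm_real, Real.norm_eq_abs, abs_of_pos (by linarith)]
        exact hB'
    have h5 : ‖(1 / 2 : ℂ)‖ = 1 / 2 := by norm_num
    rw [h5]
    linarith

end H97R2.BP
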