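import Mathlib
import Pool.Agent.H97R2.BP.Defs
import Pool.Agent.H97R2.BP.Defs2

open scoped ComplexOrder InnerProductSpace ComplexConjugate TensorProduct
open Finset H759R2.Kad H710R2.DP

noncomputable section

namespace H97R2.BP

theorem bp_t6 (h1 : Z_rnn) (h2 : Z_t3) (h3 : Z_mod) : Z_t6 := by
  intro K _ _ _ N Ω R A T J hcyc hD hJ x' hx'
  have hRT : RT R T := ⟨hD.sa, hD.pos, hD.pos2, hD.inj, hD.inj2, hJ.tsa, hJ.tpos, hJ.tsq, hJ.tr⟩
  have hX : ∀ u : ℝ, ∃ X ∈ N, ‖X‖ ≤ ‖x'‖ / 2 ∧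
      ∀ y ∈ N, ⟪Ω, y (x' Ω)⟫_ℂ = (Real.exp (-u) : ℂ) * ⟪Ω, X (y Ω)⟫_ℂ +
        (Real.exp u : ℂ) * ⟪Ω, y (X Ω)⟫_ℂ := by
    intro u
    obtain ⟨X, hX, hn, hr⟩ := h1 K N Ω x' hx' (Real.exp (-u)) (Real.exp u) (Real.exp_pos _)
      (Real.exp_pos _)
    refine ⟨X, hX, ?_, ?_⟩
    · rwa [← Real.exp_add, neg_add_cancel, Real.exp_zero, Real.sqrt_one, mul_one] at hn
    · exact hr
  choose X hXN hXn hXr using hX
  have key : ∀ z : K →L[ℂ] K, z ∈ N.commutant → z * cj J x' = cj J x' * z := by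
    intro z hz
    refine h3 K R T hRT (cj J x') (fun u => star (X u)) (‖x'‖ / 2) (fun u => ?_) ?_ z ?_
    · rw [norm_star]
      exact hXn u
    · intro u ξ
      have h4 := h2 K N Ω R A hD hcyc x' hx' (Real.exp (-u)) (Real.exp u) (X u) (hXN u) (hXr u) ξ
      rw [← h4, cj_apply, hJ.polar ξ, hJ.polar' (x' (J (T ξ)))]
    · intro u
      have h5 : star (X u) ∈ N := star_mem (hXN u)
      exact ((VonNeumannAlgebra.mem_commutant_iff.mp hz) _ h5).symm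
  rw [← VonNeumannAlgebra.commutant_commutant N]
  rw [VonNeumannAlgebra.mem_commutant_iff]
  exact key

end H97R2.BP
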